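import Pool.Agent.ZTO.Stmts

/-!
CHR: more about the chain.
-/

set_option autoImplicit false

open scoped Pointwise

namespace Pool.Agent.ZTO.H63

open Pool.Agent.ZTO

theorem chr : ChrStmt := by
  intro G _ p ψ n A hC
  refine ⟨?_, ?_, ?_⟩
  · intro i
    induction i with
    | zero => rfl
    | succ i ih =>
      ext g
      rw [← add_assoc, hC.com, ih, ← hC.com, hC.stb]
  · intro R
    induction R with
    | zero =>
      intro _ a
      rw [Nat.sub_zero]
      constructor
      · intro ha
        exact ⟨a, ha, rfl⟩
      · rintro ⟨b, hb, rfl⟩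
        exact hb
    | succ R ih =>
      intro hR a
      have e : n - R = n - (R + 1) + 1 := by omega
      constructor
      · intro ha
        obtain ⟨a1, rfl⟩ := hC.rng (n - (R + 1)) (by omega) ha
        have h1 : a1 ∈ A (n - R) := by
          rw [e]
          exact (hC.com _ _).2 ha
        obtain ⟨b, hb, hb2⟩ := (ih (by omega) a1).1 h1
        exact ⟨b, hb, by rw [Function.iterate_succ_apply', ← hb2]⟩
      · rintro ⟨b, hb, rfl⟩
        have h1 : (⇑ψ)^[R] b ∈ A (n - R) := (ih (by omega) _).2 ⟨b, hb, rfl⟩
        rw [e] at h1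
        rw [Function.iterate_succ_apply']
        exact (hC.com _ _).1 h1
  · intro R
    induction R with
    | zero =>
      intro g
      exact ⟨1, (A n).one_mem, g, by rw [one_mul]; rfl⟩
    | succ R ih =>
      intro g
      have hn := hC.nrm n
      have h1 : g ∈ A n ⊔ ψ.range := by
        rw [hC.top]
        exact Subgroup.mem_top g
      have h2 : g ∈ ((A n : Set G) * (ψ.range : Set G)) := by
        rw [← Subgroup.normal_mul]
        exact h1
      obtain ⟨a, ha, y, hy, hg⟩ := Set.mem_mul.1 h2
      obtain ⟨g1, rfl⟩ := hy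
      obtain ⟨b, hb, h, hh⟩ := ih g1
      refine ⟨a * ψ b, (A n).mul_mem ha ?_, h, ?_⟩
      · apply (hC.com n b).1
        rw [hC.stb]
        exact hb
      · rw [Function.iterate_succ_apply', ← hg, hh, map_mul, mul_assoc]

end Pool.Agent.ZTO.H63
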